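import Mathlib
import Pool.Agent.Lib.MP_550623_an.Construction

/-!
# Dense range and dense generalized kernel of `T` do not imply that `I + T` is hypercyclic

The scalar field is `ℝ` or `ℂ` (`RCLike`).
-/

open Set Function

namespace Pool.Agent.Results.MP_550623_an.NotHypercyclic

/-- `S` is hypercyclic: some `x` has a dense orbit `{S ^ n x : n ≥ 0}`. -/
def Hypercyclic {𝕜 X : Type} [RCLike 𝕜] [NormedAddCommGroup X] [NormedSpace 𝕜 X]
    (S : X →L[𝕜] X) : Prop :=
  ∃ x : X, Dense (Set.range fun n : ℕ => (S ^ n) x)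

/-- `S` is topologically mixing: for all non-empty open `U`, `V` one has
`S ^ n (U) ∩ V ≠ ∅` for all large `n`. -/
def Mixing {𝕜 X : Type} [RCLike 𝕜] [NormedAddCommGroup X] [NormedSpace 𝕜 X]
    (S : X →L[𝕜] X) : Prop :=
  ∀ U V : Set X, IsOpen U → U.Nonempty → IsOpen V → V.Nonempty →
    ∃ N : ℕ, ∀ n ≥ N, (((S ^ n) '' U) ∩ V).Nonempty

/-- **Main theorem.** For `𝕜 = ℝ` or `ℂ` there are a separable Banach space `X ≠ 0` and a bounded
operator `T` on `X` with dense range and dense generalized kernel such that `1 + T` is neither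
hypercyclic nor mixing. -/
theorem result (𝕜 : Type) [RCLike 𝕜] :
    ∃ (X : Type) (_ : NormedAddCommGroup X) (_ : NormedSpace 𝕜 X) (_ : CompleteSpace X)
      (_ : TopologicalSpace.SeparableSpace X) (_ : Nontrivial X) (T : X →L[𝕜] X),
      DenseRange T ∧ Dense (⋃ n : ℕ, {x : X | (T ^ n) x = 0}) ∧
        ¬ Hypercyclic (1 + T) ∧ ¬ Mixing (1 + T) := by
  obtain ⟨X, i1, i2, i3, i4, i5, T, h1, h2, w, hkey⟩ :=
    Pool.Agent.Lib.MP_550623_an.exists_operator 𝕜
  refine ⟨X, i1, i2, i3, i4, i5, T, h1, h2, ?_, ?_⟩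
  · rintro ⟨x, hx⟩
    -- the orbit enters the ball around `w`
    obtain ⟨_, ⟨n₀, rfl⟩, hn₀⟩ := hx.exists_mem_open Metric.isOpen_ball
      (⟨w, Metric.mem_ball_self (by norm_num : (0 : ℝ) < 1 / 2)⟩ :
        (Metric.ball w (1 / 2)).Nonempty)
    rw [Metric.mem_ball, dist_eq_norm] at hn₀
    -- from time `n₀` on the orbit stays away from `0`
    have hfar : ∀ n, n₀ ≤ n → 1 / 2 < ‖((1 + T) ^ n) x‖ := by
      intro n hn
      obtain ⟨k, rfl⟩ := Nat.exists_eq_add_of_le hn
      rw [add_comm n₀ k, pow_add, mul_apply_eq_comp]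
      exact hkey _ hn₀ k
    -- but removing finitely many points from the orbit leaves a dense set
    have : ∀ u : X, Filter.NeBot (nhdsWithin u {u}ᶜ) :=
      fun u => Module.punctured_nhds_neBot 𝕜 X u
    have hdense := hx.sdiff_finite
      (((Finset.range n₀).finite_toSet).image (fun n : ℕ => ((1 + T) ^ n) x))
    obtain ⟨_, ⟨⟨n, rfl⟩, hnot⟩, hball⟩ := hdense.exists_mem_open Metric.isOpen_ball
      (⟨0, Metric.mem_ball_self (by norm_num : (0 : ℝ) < 1 / 2)⟩ :
        (Metric.ball (0 : X) (1 / 2)).Nonempty)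
    rw [mem_ball_zero_iff] at hball
    have hn : n₀ ≤ n := by
      by_contra hlt
      exact hnot ⟨n, by simpa using not_le.mp hlt, rfl⟩
    exact absurd (hfar n hn) (not_lt.mpr hball.le)
  · intro hmix
    obtain ⟨M, hM⟩ := hmix (Metric.ball w (1 / 2)) (Metric.ball 0 (1 / 2))
      Metric.isOpen_ball ⟨_, Metric.mem_ball_self (by norm_num)⟩
      Metric.isOpen_ball ⟨_, Metric.mem_ball_self (by norm_num)⟩
    obtain ⟨_, ⟨x, hx, rfl⟩, hx2⟩ := hM M le_rfl
    rw [Metric.mem_ball, dist_eq_norm] at hx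
    rw [mem_ball_zero_iff] at hx2
    exact absurd (hkey x hx M) (not_lt.mpr hx2.le)

end Pool.Agent.Results.MP_550623_an.NotHypercyclic
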